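import Pool.Agent.T2H62.Tup

/-!
# Consecutive Chen pairs with gap `2 m`, and zeros of the recursion

For all `m ≥ 1` and `L` there is a `C` such that a positive proportion of the expected number of primes `p` has the
following property: `p + 2 m` is a product of at most two large primes, and all the other integers `p + d`, `|d| ≤ L`,
have a prime factor at most `C`; for `L ≥ 2 m` there is no prime between `p` and `p + 2 m`. Almost all of these `p` are
covered by disjoint monochromatic narrow progressions. Moreover, if the recursion of the question, with any value at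
time `s`, is at time `s` on the line which meets zero at `n = p - 1`, and `n - s` is at most a power of `p`, then
its next zero is `n`.
-/

set_option autoImplicit false

namespace Pool.Agent.Results.MP_9227d9_nt.ChenConsecutive

open Finset Filter
open Pool.Agent.T2H62.TU

/-- `v > 1` is a product of at most `r` primes, all of them larger than `y` -/
def AlmostPrime (r : ℕ) (y : ℝ) (v : ℕ) : Prop :=
  1 < v ∧ v.primeFactorsList.length ≤ r ∧ ∀ q : ℕ, q.Prime → q ∣ v → y < q

/-- every integer `p + d`, `|d| ≤ L`, `d ≠ 0, 2 m`, has a prime factor at most `C` -/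
def Isolated (m L C p : ℕ) : Prop :=
  ∀ d : ℤ, |d| ≤ L → d ≠ 0 → d ≠ 2 * m → ∃ q : ℕ, q.Prime ∧ q ≤ C ∧ (q : ℤ) ∣ (p : ℤ) + d

open Classical in
/-- the primes `p` in `(A, B]` such that `p + 2 m` is a product of at most two primes `> X ^ (1/9)`, `p` and all the prime
factors of `p + 2 m` (at most `t`) are `> X ^ (1/t)`, and `p`, `p + 2 m` are isolated -/
noncomputable def ChenPairs (m L C t X A B : ℕ) : Finset ℕ :=
  (Ioc A B).filter (fun p : ℕ => p.Prime ∧ AlmostPrime 2 ((X : ℝ) ^ (1 / 9 : ℝ)) (p + 2 * m) ∧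
    AlmostPrime t ((X : ℝ) ^ (1 / (t : ℝ))) p ∧ AlmostPrime t ((X : ℝ) ^ (1 / (t : ℝ))) (p + 2 * m) ∧ Isolated m L C p)

/-- the terms `a, a + d, ..., a + (s - 1) d` of the progression `z = (a, d)` -/
def terms (s : ℕ) (z : ℕ × ℕ) : Finset ℕ := (range s).image (fun i => z.1 + i * z.2)

/-- `a` satisfies the recursion of the question after the time `s` -/
def Recursion (m s : ℕ) (a : ℕ → ℕ) : Prop :=
  ∀ n : ℕ, s < n → (a n : ℤ) = |(a (n - 1) : ℤ) - (Nat.gcd (a (n - 1)) (n * (n + 2 * m)) : ℤ)|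

/-- the last run of the recursion -/
theorem last_run (m s p : ℕ) (y : ℝ) (hp : p.Prime) (hsp : s < p) (h1 : ∀ q : ℕ, q.Prime → q ∣ p + 2 * m → y < q)
    (hs : ((p : ℝ) - 1 - s) ≤ y) (a : ℕ → ℕ) (ha : Recursion m s a) (h0 : a s = p - 1 - s) :
    ∀ n : ℕ, s ≤ n → n < p → a n = p - 1 - n := by
  intro n hn
  induction n, hn using Nat.le_induction with
  | base => intro _; exact h0
  | succ n hn ih =>
    intro hlt
    have h2 := ih (by omega)
    have h3 := ha (n + 1) (by omega)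
    rw [Nat.add_sub_cancel, h2] at h3
    have h4 : Nat.gcd (p - 1 - n) ((n + 1) * (n + 1 + 2 * m)) = 1 := by
      by_contra hg
      obtain ⟨q, hq, hqd⟩ := Nat.exists_prime_and_dvd hg
      have h5 : q ∣ p - 1 - n := hqd.trans (Nat.gcd_dvd_left _ _)
      have h6 : q ∣ (n + 1) * (n + 1 + 2 * m) := hqd.trans (Nat.gcd_dvd_right _ _)
      have h7 : q ≤ p - 1 - n := Nat.le_of_dvd (by omega) h5
      rcases (Nat.Prime.dvd_mul hq).1 h6 with h8 | h8
      · have h9 : q ∣ p := by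
          have := dvd_add h5 h8
          rwa [show p - 1 - n + (n + 1) = p by omega] at this
        have h10 := (Nat.prime_dvd_prime_iff_eq hq hp).1 h9
        omega
      · have h9 : q ∣ p + 2 * m := by
          have := dvd_add h5 h8
          rwa [show p - 1 - n + (n + 1 + 2 * m) = p + 2 * m by omega] at this
        have h10 := h1 q hq h9
        have h11 : (q : ℝ) ≤ (p : ℝ) - 1 - s := by
          have h12 : q + 1 + s ≤ p := by omega
          have h13 : (q : ℝ) + 1 + s ≤ p := by exact_mod_cast h12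
          linarith
        linarith
    rw [h4] at h3
    have h5 : (((p - 1 - n : ℕ)) : ℤ) - ((1 : ℕ) : ℤ) = ((p - 1 - (n + 1) : ℕ) : ℤ) := by
      rw [Nat.cast_sub (by omega : n ≤ p - 1), Nat.cast_sub (by omega : n + 1 ≤ p - 1)]
      push_cast
      ring
    rw [h5, Nat.abs_cast] at h3
    exact_mod_cast h3

theorem result (m L : ℕ) (hm : 1 ≤ m) (hL : 2 * m ≤ L) : ∃ C t : ℕ, 1 ≤ t ∧ ∃ κ : ℝ, 0 < κ ∧
    -- the number of the `p` in intervals, and coverings by narrow progressions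
    (∀ (s r : ℕ) (θ δ : ℝ), 1 ≤ s → 0 < θ → 0 < δ → ∃ b X₀ : ℕ, ∀ X : ℕ, X₀ ≤ X →
      ∀ A B : ℕ, B ≤ X → θ * X ≤ (B : ℝ) - A →
        κ * ((B : ℝ) - A) / Real.log X ^ 2 ≤ ((ChenPairs m L C t X A B).card : ℝ) ∧
        ∀ χ : ℕ → Fin r, ∃ P : Finset (ℕ × ℕ),
          (∀ z ∈ P, 1 ≤ z.2 ∧ (z.2 : ℝ) ≤ Real.log X ^ b ∧
            ∀ l < s, z.1 + l * z.2 ∈ ChenPairs m L C t X A B ∧ χ (z.1 + l * z.2) = χ z.1) ∧
          (P : Set (ℕ × ℕ)).PairwiseDisjoint (terms s) ∧
          (((ChenPairs m L C t X A B \ P.biUnion (terms s)).card : ℕ) : ℝ) ≤ δ * ((B : ℝ) - A) / Real.log X ^ 2) ∧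
    ∀ X A B p : ℕ, p ∈ ChenPairs m L C t X A B → C < p →
      -- no prime between `p` and `p + 2 m`
      (∀ q : ℕ, p < q → q < p + 2 * m → ¬ q.Prime) ∧
      -- zeros of the recursion
      ∀ s : ℕ, s < p → ((p : ℝ) - 1 - s) ≤ (X : ℝ) ^ (1 / 9 : ℝ) → ∀ a : ℕ → ℕ, Recursion m s a → a s = p - 1 - s →
        a (p - 1) = 0 ∧ ∀ n : ℕ, s ≤ n → n < p - 1 → a n ≠ 0 := by
  classical
  obtain ⟨W, hW⟩ : ∃ W : Finset ℤ, W = (Icc (-(L : ℤ)) L).filter (fun d : ℤ => d ≠ 0 ∧ d ≠ 2 * (m : ℤ)) := ⟨_, rfl⟩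
  obtain ⟨T, hT⟩ : ∃ T : Finset ℤ, T = {0, 2 * (m : ℤ)} := ⟨_, rfl⟩
  have hm0 : (0 : ℤ) ≠ 2 * (m : ℤ) := by
    have : (1 : ℤ) ≤ m := by exact_mod_cast hm
    omega
  have hTc : T.card = 2 := by
    rw [hT, card_pair hm0]
  have hadm : AdmT 1 T := by
    intro p hp
    by_cases hpm : (p : ℤ) ∣ 2 * m
    · refine ⟨1, fun d hd hdv => ?_⟩
      have hp1 : ¬ (p : ℤ) ∣ 1 := by
        intro h1
        have h2 := Int.le_of_dvd one_pos h1
        have h3 := hp.two_le
        omega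
      rw [hT, mem_insert, mem_singleton] at hd
      rcases hd with rfl | rfl
      · apply hp1
        simpa using hdv
      · apply hp1
        have h2 : ((1 : ℕ) : ℤ) * 1 + 2 * (m : ℤ) = 1 + 2 * m := by push_cast; ring
        rw [h2] at hdv
        exact (dvd_add_left hpm).1 hdv
    · -- `p` does not divide `2 m`: take `n = 2 m` if `p ∤ 4 m`
      have hp3 : 3 ≤ p := by
        rcases Nat.lt_or_ge p 3 with h | h
        · exfalso
          have hp2 : p = 2 := by have := hp.two_le; omega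
          rw [hp2] at hpm
          exact hpm (Dvd.intro _ rfl)
        · exact h
      refine ⟨2 * m, fun d hd hdv => ?_⟩
      rw [hT, mem_insert, mem_singleton] at hd
      rcases hd with rfl | rfl
      · apply hpm
        simpa using hdv
      · have h2 : ((1 : ℕ) : ℤ) * (2 * (m : ℤ)) + 2 * (m : ℤ) = 2 * (2 * m) := by push_cast; ring
        rw [h2] at hdv
        have hpz : Prime (p : ℤ) := Nat.prime_iff_prime_int.1 hp
        rcases hpz.dvd_or_dvd hdv with h3 | h3
        · have := Int.le_of_dvd (by norm_num) h3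
          omega
        · exact hpm h3
  have hTW : ∀ w ∈ W, w ∉ T := by
    intro w hw
    rw [hW, mem_filter] at hw
    rw [hT, mem_insert, mem_singleton]
    rintro (h | h)
    · exact hw.2.1 h
    · exact hw.2.2 h
  obtain ⟨C, t, ht, κ, hκ, H⟩ := chen 1 le_rfl hadm hTW 0 (2 * m) (by rw [hT]; simp) (by rw [hT]; simp) hm0
  rw [hTc] at H
  have hal : ∀ (r : ℕ) (y : ℝ) (v : ℕ), Pool.Agent.X32.Uni.Almost r y (v : ℤ) ↔ AlmostPrime r y v := by
    intro r y v
    unfold Pool.Agent.X32.Uni.Almost AlmostPrime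
    rw [Nat.abs_cast, Int.natAbs_natCast]
    constructor
    · rintro ⟨h1, h2, h3⟩
      exact ⟨by exact_mod_cast h1, h2, fun q hq hd => h3 q hq (Int.natCast_dvd_natCast.2 hd)⟩
    · rintro ⟨h1, h2, h3⟩
      exact ⟨by exact_mod_cast h1, h2, fun q hq hd => h3 q hq (Int.natCast_dvd_natCast.1 hd)⟩
  have heq : ∀ X A B : ℕ, GC 1 T W 0 (2 * m) C t X A B = ChenPairs m L C t X A B := by
    intro X A B
    unfold GC ChenPairs
    apply filter_congr
    intro p _
    have c0 : ((1 : ℕ) : ℤ) * (p : ℤ) + 0 = ((p : ℕ) : ℤ) := by push_cast; ring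
    have c2 : ((1 : ℕ) : ℤ) * (p : ℤ) + 2 * (m : ℤ) = ((p + 2 * m : ℕ) : ℤ) := by push_cast; ring
    rw [c0, c2, Int.natAbs_natCast, hal]
    refine and_congr_right fun _ => and_congr_right fun _ => ?_
    have h1 : (∀ h ∈ T, Pool.Agent.X32.Uni.Almost t ((X : ℝ) ^ (1 / (t : ℝ))) (((1 : ℕ) : ℤ) * (p : ℤ) + h)) ↔
        AlmostPrime t ((X : ℝ) ^ (1 / (t : ℝ))) p ∧ AlmostPrime t ((X : ℝ) ^ (1 / (t : ℝ))) (p + 2 * m) := by
      rw [hT]
      simp only [mem_insert, mem_singleton, forall_eq_or_imp, forall_eq]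
      rw [c0, c2, hal, hal]
    have h2 : (∀ w ∈ W, ∃ q : ℕ, q.Prime ∧ q ≤ C ∧ (q : ℤ) ∣ ((1 : ℕ) : ℤ) * (p : ℤ) + w) ↔ Isolated m L C p := by
      unfold Isolated
      have c1 : ∀ w : ℤ, ((1 : ℕ) : ℤ) * (p : ℤ) + w = (p : ℤ) + w := fun w => by push_cast; ring
      simp only [c1]
      constructor
      · intro h d h3 h4 h5
        refine h d ?_
        rw [hW, mem_filter, mem_Icc]
        exact ⟨abs_le.1 h3, h4, h5⟩
      · intro h w hw
        rw [hW, mem_filter, mem_Icc] at hw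
        exact h w (abs_le.2 hw.1) hw.2.1 hw.2.2
    rw [h1, h2]
    tauto
  simp only [heq] at H
  refine ⟨C, t, ht, κ, hκ, H, fun X A B p hp hCp => ?_⟩
  unfold ChenPairs at hp
  rw [mem_filter, mem_Ioc] at hp
  obtain ⟨_, hpp, h2, -, -, hiso⟩ := hp
  refine ⟨fun q hq1 hq2 hq => ?_, fun s hs hsX a ha h0 => ?_⟩
  · obtain ⟨l, hl, hlC, hld⟩ := hiso ((q : ℤ) - p) (by
      rw [abs_le]
      constructor
      · omega
      · omega) (by omega) (by omega)
    have h3 : (l : ℤ) ∣ (q : ℤ) := by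
      rwa [show (p : ℤ) + ((q : ℤ) - p) = q by ring] at hld
    have h4 : l ∣ q := by exact_mod_cast h3
    have h5 := (Nat.prime_dvd_prime_iff_eq hl hq).1 h4
    omega
  · have h3 := last_run m s p _ hpp hs h2.2.2 hsX a ha h0
    refine ⟨?_, fun n hn1 hn2 => ?_⟩
    · have h4 := h3 (p - 1) (by omega) (by have := hpp.two_le; omega)
      omega
    · have h4 := h3 n hn1 (by omega)
      omega

end Pool.Agent.Results.MP_9227d9_nt.ChenConsecutive
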