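import Pool.Agent.T2H22.DF.Gen
import Pool.Agent.T2H62.RecZ

/-!
# Clusters of initial values with latest possible first zero, for almost all `m`

The recursion of the question with the parameter `m`, from an arbitrary initial value `a 1 = A`. Its first zero is at most
`A + 1`. For every `r` there is `C` such that for almost all `m` there are many intervals of length `C` with at least `r`
initial values `A` for which the first zero is `n = A + 1` and both `n + 1` and `n + 2 m + 1` are primes.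
-/

set_option autoImplicit false

namespace Pool.Agent.Results.MP_9227d9_nt.ClustersOfFirstZeros

open Finset

/-- the recursion of the question, without the initial value -/
def Recursion (m : ℕ) (a : ℕ → ℕ) : Prop :=
  ∀ n : ℕ, 2 ≤ n → (a n : ℤ) = |(a (n - 1) : ℤ) - (Nat.gcd (a (n - 1)) (n * (n + 2 * m)) : ℤ)|

/-- `n` is the first zero of `a` -/
def FirstZero (a : ℕ → ℕ) (n : ℕ) : Prop := 1 ≤ n ∧ a n = 0 ∧ ∀ k : ℕ, 1 ≤ k → k < n → a k ≠ 0

/-- the initial value `A` leads to the first zero `n = A + 1`, and `n + 1`, `n + 2 m + 1` are primes -/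
def Good (m A : ℕ) : Prop :=
  (A + 2).Prime ∧ (A + 2 * m + 2).Prime ∧ ∀ a : ℕ → ℕ, Recursion m a → a 1 = A → FirstZero a (A + 1)

theorem good_of {m A : ℕ} (hm : 1 ≤ m) (h1 : (A + 2).Prime) (h2 : (A + 2 * m + 2).Prime) : Good m A := by
  refine ⟨h1, h2, fun a ha h => ?_⟩
  have h5 := Pool.Agent.T2H62.RZ.run_down hm ha h h1 h2
  refine ⟨by omega, ?_, fun k hk1 hk2 => ?_⟩
  · rw [h5 (A + 1) (by omega) (by omega)]
    omega
  · rw [h5 k hk1 (by omega)]
    omega

open Classical in
/-- the number of the `y ∈ [1, 2 m]` such that at least `r` of the initial values `y + b`, `b ∈ B`, are good -/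
noncomputable def translates (r : ℕ) (B : Finset ℕ) (m : ℕ) : ℕ :=
  ((Icc 1 (2 * m)).filter (fun y => r ≤ (B.filter (fun b => Good m (y + b))).card)).card

open Classical in
/-- the number of the `y ∈ [1, 2 m]` such that `[y, y + C]` contains at least `r` good initial values -/
noncomputable def clusters (r C m : ℕ) : ℕ :=
  ((Icc 1 (2 * m)).filter (fun y => r ≤ ((Icc y (y + C)).filter (fun A => Good m A)).card)).card

/-- no local obstruction: for every prime `q` there is an integer `y` such that none of the integers `y + b` and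
`y + b + 2 m`, `b ∈ B`, is divisible by `q` -/
def LocallyPossible (B : Finset ℕ) (m : ℕ) : Prop :=
  ∀ q : ℕ, q.Prime → ∃ y : ℤ, ∀ b ∈ B, ¬ (q : ℤ) ∣ y + b ∧ ¬ (q : ℤ) ∣ y + b + 2 * m

theorem double {Q : ℕ → Prop} {P : ℕ → Prop} [DecidablePred Q] [DecidablePred P] (c : ℕ)
    (h : ∀ m : ℕ, c < m → Q m → P (2 * m)) (ε : ℝ) (hε : 0 < ε) (X₀ : ℕ)
    (hX : ∀ X : ℕ, X₀ ≤ X → (((Icc 1 X).filter P).card : ℝ) ≤ ε / 4 * X) :
    ∃ X₁ : ℕ, ∀ X : ℕ, X₁ ≤ X → (((Icc 1 X).filter Q).card : ℝ) ≤ ε * X := by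
  refine ⟨max X₀ ⌈2 * c / ε⌉₊, fun X hX' => ?_⟩
  have h1 := hX (2 * X) (by have := (le_max_left _ _).trans hX'; omega)
  have h2 : (c : ℝ) ≤ ε / 2 * X := by
    have e1 : 2 * c / ε ≤ X := (Nat.le_ceil _).trans (by exact_mod_cast (le_max_right _ _).trans hX')
    rw [div_le_iff₀ hε] at e1
    linarith
  have hsub : (Icc 1 X).filter Q ⊆ Icc 1 c ∪ ((Icc 1 X).filter (fun m => P (2 * m))) := by
    intro m hm
    rw [mem_filter, mem_Icc] at hm
    rw [mem_union, mem_filter, mem_Icc, mem_Icc]
    by_cases hs : m ≤ c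
    · exact Or.inl ⟨hm.1.1, hs⟩
    · exact Or.inr ⟨hm.1, h m (by omega) hm.2⟩
  have h3 := (card_le_card hsub).trans (card_union_le _ _)
  rw [Nat.card_Icc, Nat.add_sub_cancel] at h3
  have h4 : ((Icc 1 X).filter (fun m => P (2 * m))).card ≤ ((Icc 1 (2 * X)).filter P).card := by
    apply card_le_card_of_injOn (fun m => 2 * m)
    · intro m hm
      rw [mem_coe, mem_filter, mem_Icc] at hm
      rw [mem_coe, mem_filter, mem_Icc]
      simp only
      exact ⟨⟨by omega, by omega⟩, hm.2⟩
    · intro m _ m' _ he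
      simp only at he
      omega
  have h5 : (((Icc 1 X).filter Q).card : ℝ) ≤ c + (((Icc 1 (2 * X)).filter P).card : ℝ) := by
    exact_mod_cast h3.trans (Nat.add_le_add_left h4 c)
  push_cast at h1
  linarith

open Classical in
/-- **Clusters of late first zeros for almost all `m`.** Let `r` be given. (1) For some `K` and all sets `B` of at least `K`
nonnegative integers there is `D` such that for almost all `m` without a local obstruction at least `m / (log m) ^ D`
integers `y ∈ [1, 2 m]` are such that at least `r` of the initial values `A = y + b`, `b ∈ B`, of the recursion have the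
first zero `n = A + 1`, with `n + 1` and `n + 2 m + 1` prime. (2) There are `C` and `D` such that for almost all `m` at
least `m / (log m) ^ D` intervals `[y, y + C]`, `1 ≤ y ≤ 2 m`, contain at least `r` such initial values. -/
theorem result (r : ℕ) :
    (∃ K : ℕ, ∀ B : Finset ℕ, K ≤ B.card → ∃ D : ℕ, ∀ ε : ℝ, 0 < ε → ∃ X₀ : ℕ, ∀ X : ℕ, X₀ ≤ X →
      (((Icc 1 X).filter (fun m : ℕ => LocallyPossible B m ∧
        (translates r B m : ℝ) < m / Real.log m ^ D)).card : ℝ) ≤ ε * X) ∧
    ∃ (C D : ℕ), ∀ ε : ℝ, 0 < ε → ∃ X₀ : ℕ, ∀ X : ℕ, X₀ ≤ X →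
      (((Icc 1 X).filter (fun m : ℕ => (clusters r C m : ℝ) < m / Real.log m ^ D)).card : ℝ) ≤ ε * X := by
  -- comparison of the sizes
  have hsize : ∀ D m : ℕ, 3 < m → (m : ℝ) / Real.log m ^ D ≤ 2 * (((2 * m : ℕ) : ℝ) / Real.log (2 * m : ℕ) ^ D) *
      2 ^ D := by
    intro D m hm
    have hm0 : (0 : ℝ) < m := by
      have : 0 < m := by omega
      exact_mod_cast this
    have hlm : 0 < Real.log (m : ℝ) := Real.log_pos (by
      have : 1 < m := by omega
      exact_mod_cast this)
    have hl2 : Real.log ((2 * m : ℕ) : ℝ) ≤ 2 * Real.log m := by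
      push_cast
      rw [Real.log_mul (by norm_num) hm0.ne']
      have : Real.log 2 ≤ Real.log m := Real.log_le_log (by norm_num) (by
        have : 2 ≤ m := by omega
        exact_mod_cast this)
      linarith
    have hl20 : 0 < Real.log ((2 * m : ℕ) : ℝ) := Real.log_pos (by
      have : 1 < 2 * m := by omega
      exact_mod_cast this)
    have h1 : Real.log ((2 * m : ℕ) : ℝ) ^ D ≤ 2 ^ D * Real.log m ^ D := by
      rw [← mul_pow]
      exact pow_le_pow_left₀ hl20.le hl2 D
    rw [div_le_iff₀ (by positivity)]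
    have h2 : (m : ℝ) ≤ 2 * (((2 * m : ℕ) : ℝ) / Real.log (2 * m : ℕ) ^ D) * Real.log (2 * m : ℕ) ^ D := by
      rw [mul_assoc, div_mul_cancel₀ _ (by positivity)]
      push_cast
      linarith
    refine h2.trans ?_
    rw [mul_assoc (2 * _) (2 ^ D)]
    apply mul_le_mul_of_nonneg_left h1
    positivity
  have hD : ∀ D : ℕ, ∃ c : ℕ, ∀ m : ℕ, c < m →
      (m : ℝ) / Real.log m ^ (D + 1) ≤ ((2 * m : ℕ) : ℝ) / Real.log (2 * m : ℕ) ^ D := by
    intro D
    obtain ⟨c, hc⟩ := Filter.eventually_atTop.1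
      (Pool.Agent.H862R2.PPSm5.log_tendsto.eventually_ge_atTop (2 * 2 ^ D : ℝ))
    refine ⟨max c 3, fun m hm => ?_⟩
    have h1 := hc m (by omega)
    have h2 := hsize D m (by omega)
    have hlm : 0 < Real.log (m : ℝ) := lt_of_lt_of_le (by positivity) h1
    rw [pow_succ, ← div_div, div_le_iff₀ hlm]
    refine h2.trans ?_
    have h3 : (0 : ℝ) ≤ ((2 * m : ℕ) : ℝ) / Real.log (2 * m : ℕ) ^ D := by
      have : 0 ≤ Real.log ((2 * m : ℕ) : ℝ) := Real.log_natCast_nonneg _
      positivity
    calc 2 * (((2 * m : ℕ) : ℝ) / Real.log (2 * m : ℕ) ^ D) * 2 ^ D =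
        (((2 * m : ℕ) : ℝ) / Real.log (2 * m : ℕ) ^ D) * (2 * 2 ^ D) := by ring
      _ ≤ _ := mul_le_mul_of_nonneg_left h1 h3
  constructor
  · obtain ⟨K, h⟩ := Pool.Agent.T2H22.DF.all_T r
    refine ⟨K, fun B hB => ?_⟩
    obtain ⟨D, h1⟩ := h B hB
    obtain ⟨c, hc⟩ := hD D
    refine ⟨D + 1, fun ε hε => ?_⟩
    obtain ⟨X₀, h2⟩ := h1 (ε / 4) (by positivity)
    refine double (max c 20) (fun m hm hQ => ?_) ε hε X₀ h2
    refine ⟨?_, lt_of_le_of_lt ?_ (hQ.2.trans_le (hc m (by omega)))⟩
    · intro q hq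
      obtain ⟨y, hy⟩ := hQ.1 q hq
      refine ⟨y, fun b hb => ?_⟩
      obtain ⟨e1, e2⟩ := hy b hb
      refine ⟨e1, ?_⟩
      push_cast
      exact e2
    · apply Nat.cast_le.2
      unfold Pool.Agent.T2H22.DF.cntT translates
      apply card_le_card_of_injOn (fun y => y - 2)
      · intro y hy
        rw [mem_coe, mem_filter, mem_Icc] at hy
        obtain ⟨⟨hy1, hy2⟩, hy3⟩ := hy
        rw [mem_coe, mem_filter, mem_Icc]
        simp only
        refine ⟨⟨by omega, by omega⟩, hy3.trans (card_le_card ?_)⟩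
        intro b hb
        rw [mem_filter] at hb ⊢
        refine ⟨hb.1, good_of (by omega) ?_ ?_⟩
        · rw [show y - 2 + b + 2 = y + b by omega]
          exact hb.2.1
        · rw [show y - 2 + b + 2 * m + 2 = y + b + 2 * m by omega]
          exact hb.2.2
      · intro y hy y' hy' he
        rw [mem_coe, mem_filter, mem_Icc] at hy hy'
        simp only at he
        omega
  · obtain ⟨C, D, h⟩ := Pool.Agent.T2H22.DF.main_W r
    obtain ⟨c, hc⟩ := hD D
    refine ⟨C, D + 1, fun ε hε => ?_⟩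
    obtain ⟨X₀, h2⟩ := h (ε / 4) (by positivity)
    refine double (max c 20) (fun m hm hQ => ?_) ε hε X₀ h2
    refine ⟨even_two_mul m, lt_of_le_of_lt ?_ (hQ.trans_le (hc m (by omega)))⟩
    apply Nat.cast_le.2
    unfold Pool.Agent.T2H22.DF.cw clusters
    apply card_le_card_of_injOn (fun y => y - 2)
    · intro y hy
      rw [mem_coe, mem_filter, mem_Icc] at hy
      obtain ⟨⟨hy1, hy2⟩, hy3⟩ := hy
      rw [mem_coe, mem_filter, mem_Icc]
      simp only
      refine ⟨⟨by omega, by omega⟩, hy3.trans ?_⟩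
      apply card_le_card_of_injOn (fun p => p - 2)
      · intro p hp
        rw [mem_coe, mem_filter, mem_Icc] at hp
        obtain ⟨⟨hp1, hp2⟩, hp3, hp4⟩ := hp
        rw [mem_coe, mem_filter, mem_Icc]
        simp only
        refine ⟨⟨by omega, by omega⟩, good_of (by omega) ?_ ?_⟩
        · rw [show p - 2 + 2 = p by omega]
          exact hp3
        · rw [show p - 2 + 2 * m + 2 = p + 2 * m by omega]
          exact hp4
      · intro p hp p' hp' he
        rw [mem_coe, mem_filter, mem_Icc] at hp hp'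
        simp only at he
        omega
    · intro y hy y' hy' he
      rw [mem_coe, mem_filter, mem_Icc] at hy hy'
      simp only at he
      omega

end Pool.Agent.Results.MP_9227d9_nt.ClustersOfFirstZeros
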