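import Pool.Agent.T2H22.DR.Syn
import Pool.Agent.T2H62.RecZ

/-!
# First zeros at selected primes, with consecutive primes on the other side, for almost all `m`

The recursion of the question with the parameter `m`, from an arbitrary initial value `a 1 = A`. Its first zero is at most
`A + 1`. Call a prime `P` good if the first zero from `A = P - 2` is `n = P - 1`, and `n + 2 m + 1` is prime. A rule selects
from every run `p (i + 1), …, p (i + K)` of `K` consecutive primes at least `k` of them. For almost all `m` there are many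
runs of `r` consecutive primes, of bounded diameter, all of the form `P + 2 m = n + 2 m + 1` with good and selected `P`.
-/

set_option autoImplicit false

namespace Pool.Agent.Results.MP_9227d9_nt.SelectedFirstZeros

open Finset

/-- the recursion of the question, without the initial value -/
def Recursion (m : ℕ) (a : ℕ → ℕ) : Prop :=
  ∀ n : ℕ, 2 ≤ n → (a n : ℤ) = |(a (n - 1) : ℤ) - (Nat.gcd (a (n - 1)) (n * (n + 2 * m)) : ℤ)|

/-- `n` is the first zero of `a` -/
def FirstZero (a : ℕ → ℕ) (n : ℕ) : Prop := 1 ≤ n ∧ a n = 0 ∧ ∀ k : ℕ, 1 ≤ k → k < n → a k ≠ 0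

/-- the initial value `P - 2` leads to the first zero `n = P - 1`, and `n + 1 = P` and `n + 2 m + 1` are primes -/
def Good (m P : ℕ) : Prop :=
  P.Prime ∧ (P + 2 * m).Prime ∧ ∀ a : ℕ → ℕ, Recursion m a → a 1 = P - 2 → FirstZero a (P - 1)

theorem good_of {m P : ℕ} (hm : 1 ≤ m) (h1 : P.Prime) (h2 : (P + 2 * m).Prime) : Good m P := by
  have hP := h1.two_le
  refine ⟨h1, h2, fun a ha h => ?_⟩
  have h5 := Pool.Agent.T2H62.RZ.run_down hm ha h (by rwa [show P - 2 + 2 = P by omega])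
    (by rwa [show P - 2 + 2 * m + 2 = P + 2 * m by omega])
  refine ⟨by omega, ?_, fun k hk1 hk2 => ?_⟩
  · rw [h5 (P - 1) (by omega) (by omega)]
    omega
  · rw [h5 k hk1 (by omega)]
    omega

/-- the `x`-th prime, `p 1 = 2` -/
noncomputable def p (x : ℕ) : ℕ := Nat.nth Nat.Prime (x - 1)

/-- the consecutive primes `p (i' + 1), …, p (i' + r)` have diameter at most `C`, and they all are `P + 2 m` for good
selected primes `P` of one run of `K` consecutive primes in `[m/3, 2 m]` of diameter at most `C` -/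
def GoodRun (σ : ℕ → Finset ℕ) (K r C m i' : ℕ) : Prop :=
  p (i' + r) ≤ p (i' + 1) + C ∧ ∃ i : ℕ, m / 3 ≤ p (i + 1) ∧ p (i + K) ≤ 2 * m ∧ p (i + K) ≤ p (i + 1) + C ∧
    ∀ j' : ℕ, 1 ≤ j' → j' ≤ r → ∃ j ∈ σ i, p (i' + j') = p (i + j) + 2 * m ∧ Good m (p (i + j))

open Classical in
/-- the number of these runs of `r` consecutive primes -/
noncomputable def goodRuns (σ : ℕ → Finset ℕ) (K r C m : ℕ) : ℕ :=
  ((range (4 * m)).filter (fun i' => GoodRun σ K r C m i')).card

open Classical in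
/-- the number of the `y ≤ 2 m` such that `[y, y + C]` contains at least `r` good primes `P = p u`, `u ∈ 𝒳`, with
`P + 2 m = p v`, `v ∈ 𝒴` -/
noncomputable def windows (𝒳 𝒴 : Set ℕ) (r C m : ℕ) : ℕ :=
  ((Icc 1 (2 * m)).filter (fun y => r ≤ ((Icc y (y + C)).filter (fun P => Good m P ∧
    (∃ u ∈ 𝒳, 1 ≤ u ∧ P = p u) ∧ ∃ v ∈ 𝒴, 1 ≤ v ∧ P + 2 * m = p v)).card)).card

theorem double {Q : ℕ → Prop} {P : ℕ → Prop} [DecidablePred Q] [DecidablePred P] (c : ℕ)
    (h : ∀ m : ℕ, c < m → Q m → P (2 * m)) (ε : ℝ) (X : ℕ)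
    (hc : (c : ℝ) ≤ ε / 2 * X)
    (hX : (((Icc 1 (2 * X)).filter P).card : ℝ) ≤ ε / 4 * (2 * X : ℕ)) :
    (((Icc 1 X).filter Q).card : ℝ) ≤ ε * X := by
  have hsub : (Icc 1 X).filter Q ⊆ Icc 1 c ∪ ((Icc 1 X).filter (fun m => P (2 * m))) := by
    intro m hm
    rw [mem_filter, mem_Icc] at hm
    rw [mem_union, mem_filter, mem_Icc, mem_Icc]
    by_cases hs : m ≤ c
    · exact Or.inl ⟨hm.1.1, hs⟩
    · exact Or.inr ⟨hm.1, h m (by omega) hm.2⟩
  have h3 := (card_le_card hsub).trans (card_union_le _ _)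
  rw [Nat.card_Icc, Nat.add_sub_cancel] at h3
  have h4 : ((Icc 1 X).filter (fun m => P (2 * m))).card ≤ ((Icc 1 (2 * X)).filter P).card := by
    apply card_le_card_of_injOn (fun m => 2 * m)
    · intro m hm
      rw [mem_coe, mem_filter, mem_Icc] at hm
      rw [mem_coe, mem_filter, mem_Icc]
      simp only
      exact ⟨⟨by omega, by omega⟩, hm.2⟩
    · intro m _ m' _ he
      simp only at he
      omega
  have h5 : (((Icc 1 X).filter Q).card : ℝ) ≤ c + (((Icc 1 (2 * X)).filter P).card : ℝ) := by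
    exact_mod_cast h3.trans (Nat.add_le_add_left h4 c)
  push_cast at hX
  linarith

theorem hD (D : ℕ) : ∃ c : ℕ, ∀ m : ℕ, c < m →
    (m : ℝ) / Real.log m ^ (D + 1) ≤ ((2 * m : ℕ) : ℝ) / Real.log (2 * m : ℕ) ^ D := by
  -- comparison of the sizes
  have hsize : ∀ m : ℕ, 3 < m → (m : ℝ) / Real.log m ^ D ≤ 2 * (((2 * m : ℕ) : ℝ) / Real.log (2 * m : ℕ) ^ D) *
      2 ^ D := by
    intro m hm
    have hm0 : (0 : ℝ) < m := by
      have : 0 < m := by omega
      exact_mod_cast this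
    have hlm : 0 < Real.log (m : ℝ) := Real.log_pos (by
      have : 1 < m := by omega
      exact_mod_cast this)
    have hl2 : Real.log ((2 * m : ℕ) : ℝ) ≤ 2 * Real.log m := by
      push_cast
      rw [Real.log_mul (by norm_num) hm0.ne']
      have : Real.log 2 ≤ Real.log m := Real.log_le_log (by norm_num) (by
        have : 2 ≤ m := by omega
        exact_mod_cast this)
      linarith
    have hl20 : 0 < Real.log ((2 * m : ℕ) : ℝ) := Real.log_pos (by
      have : 1 < 2 * m := by omega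
      exact_mod_cast this)
    have h1 : Real.log ((2 * m : ℕ) : ℝ) ^ D ≤ 2 ^ D * Real.log m ^ D := by
      rw [← mul_pow]
      exact pow_le_pow_left₀ hl20.le hl2 D
    rw [div_le_iff₀ (by positivity)]
    have h2 : (m : ℝ) ≤ 2 * (((2 * m : ℕ) : ℝ) / Real.log (2 * m : ℕ) ^ D) * Real.log (2 * m : ℕ) ^ D := by
      rw [mul_assoc, div_mul_cancel₀ _ (by positivity)]
      push_cast
      linarith
    refine h2.trans ?_
    rw [mul_assoc (2 * _) (2 ^ D)]
    apply mul_le_mul_of_nonneg_left h1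
    positivity
  obtain ⟨c, hc⟩ := Filter.eventually_atTop.1
    (Pool.Agent.H862R2.PPSm5.log_tendsto.eventually_ge_atTop (2 * 2 ^ D : ℝ))
  refine ⟨max c 3, fun m hm => ?_⟩
  have h1 := hc m (by omega)
  have h2 := hsize m (by omega)
  have hlm : 0 < Real.log (m : ℝ) := lt_of_lt_of_le (by positivity) h1
  rw [pow_succ, ← div_div, div_le_iff₀ hlm]
  refine h2.trans ?_
  have h3 : (0 : ℝ) ≤ ((2 * m : ℕ) : ℝ) / Real.log (2 * m : ℕ) ^ D := by
    have : 0 ≤ Real.log ((2 * m : ℕ) : ℝ) := Real.log_natCast_nonneg _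
    positivity
  calc 2 * (((2 * m : ℕ) : ℝ) / Real.log (2 * m : ℕ) ^ D) * 2 ^ D =
      (((2 * m : ℕ) : ℝ) / Real.log (2 * m : ℕ) ^ D) * (2 * 2 ^ D) := by ring
    _ ≤ _ := mul_le_mul_of_nonneg_left h1 h3

open Classical in
/-- **First zeros at selected primes and consecutive primes, for almost all `m`.** (1) For every `r ≥ 1` there is `k` such
that for every `K ≥ k` there are `C` and `D` such that for every rule `σ` which selects at least `k` of the `K` indices
`i + 1, …, i + K`, for each `i`, the following holds for almost all `m`, uniformly in `σ`. At least `m / (log m) ^ D` runs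
`p (i' + 1), …, p (i' + r)` of consecutive primes have diameter at most `C`, and they all are `P + 2 m = n + 2 m + 1` for
selected primes `P` of one run of `K` consecutive primes in `[m/3, 2 m]` of diameter at most `C`, for which the recursion
with the initial value `P - 2` has the first zero `n = P - 1`. (2) For all `r, m₀ ≥ 1` there are `C` and `D` such that for
all sets `𝒳`, `𝒴` of indices which meet every block of `m₀` consecutive indices, for almost all `m`, uniformly in `𝒳` and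
`𝒴`, at least `m / (log m) ^ D` intervals `[y, y + C]`, `y ≤ 2 m`, contain at least `r` primes `P = p u`, `u ∈ 𝒳`, with
`P + 2 m = p v`, `v ∈ 𝒴`, such that the initial value `P - 2` has the first zero `P - 1`. -/
theorem result (r : ℕ) (hr : 1 ≤ r) :
    (∃ k : ℕ, ∀ K : ℕ, k ≤ K → ∃ C D : ℕ, ∀ ε : ℝ, 0 < ε → ∃ X₀ : ℕ,
      ∀ σ : ℕ → Finset ℕ, (∀ i, σ i ⊆ Icc 1 K ∧ k ≤ (σ i).card) → ∀ X : ℕ, X₀ ≤ X →
      (((Icc 1 X).filter (fun m : ℕ => (goodRuns σ K r C m : ℝ) < m / Real.log m ^ D)).card : ℝ) ≤ ε * X) ∧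
    ∀ m₀ : ℕ, 1 ≤ m₀ → ∃ C D : ℕ, ∀ ε : ℝ, 0 < ε → ∃ X₀ : ℕ,
      ∀ 𝒳 𝒴 : Set ℕ, (∀ i : ℕ, ∃ x ∈ 𝒳, i < x ∧ x ≤ i + m₀) → (∀ i : ℕ, ∃ x ∈ 𝒴, i < x ∧ x ≤ i + m₀) →
      ∀ X : ℕ, X₀ ≤ X →
      (((Icc 1 X).filter (fun m : ℕ => (windows 𝒳 𝒴 r C m : ℝ) < m / Real.log m ^ D)).card : ℝ) ≤ ε * X := by
  constructor
  · obtain ⟨k, hk, hmain⟩ := Pool.Agent.T2H22.DR.main_RR r hr
    refine ⟨k, fun K hK => ?_⟩
    obtain ⟨C, D, h⟩ := hmain K hK
    obtain ⟨c, hc⟩ := hD D
    refine ⟨C, D + 1, fun ε hε => ?_⟩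
    obtain ⟨X₀, h2⟩ := h (ε / 4) (by positivity)
    refine ⟨max X₀ ⌈2 * ((max c 3 : ℕ) : ℝ) / ε⌉₊, fun σ hσ X hX => ?_⟩
    refine double (max c 3) (fun m hm hQ => ?_) ε X ?_ (h2 σ hσ (2 * X) (by
      have := (le_max_left _ _).trans hX
      omega))
    · refine ⟨even_two_mul m, lt_of_le_of_lt ?_ (hQ.trans_le (hc m (by omega)))⟩
      apply Nat.cast_le.2
      unfold Pool.Agent.T2H22.DR.goodD goodRuns
      apply card_le_card
      intro i' hi
      rw [mem_filter, mem_range] at hi ⊢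
      obtain ⟨hi1, hi2, i, hi3, hi4, hi5, hi6⟩ := hi
      have e3 : m / 3 ≤ 2 * m / 6 := by omega
      refine ⟨by omega, hi2, i, e3.trans hi3, hi4, hi5, fun j' h4 h5 => ?_⟩
      obtain ⟨j, hj, h6⟩ := hi6 j' h4 h5
      refine ⟨j, hj, h6.symm, good_of (by omega) (Pool.Agent.T2H22.AQ.pr_prime (i + j)) ?_⟩
      have h7 : p (i + j) + 2 * m = p (i' + j') := h6
      rw [h7]
      exact Pool.Agent.T2H22.AQ.pr_prime (i' + j')
    · have h3 : 2 * ((max c 3 : ℕ) : ℝ) / ε ≤ X :=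
        (Nat.le_ceil _).trans (by exact_mod_cast (le_max_right _ _).trans hX)
      rw [div_le_iff₀ hε] at h3
      linarith
  · intro m₀ hm₀
    obtain ⟨C, D, h⟩ := Pool.Agent.T2H22.DR.main_SS r m₀ hr hm₀
    obtain ⟨c, hc⟩ := hD D
    refine ⟨C, D + 1, fun ε hε => ?_⟩
    obtain ⟨X₀, h2⟩ := h (ε / 4) (by positivity)
    refine ⟨max X₀ ⌈2 * ((max c 3 : ℕ) : ℝ) / ε⌉₊, fun 𝒳 𝒴 h𝒳 h𝒴 X hX => ?_⟩
    refine double (max c 3) (fun m hm hQ => ?_) ε X ?_ (h2 𝒳 𝒴 h𝒳 h𝒴 (2 * X) (by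
      have := (le_max_left _ _).trans hX
      omega))
    · refine ⟨even_two_mul m, lt_of_le_of_lt ?_ (hQ.trans_le (hc m (by omega)))⟩
      apply Nat.cast_le.2
      unfold Pool.Agent.T2H22.DR.clD windows
      apply card_le_card
      intro y hy
      rw [mem_filter, mem_Icc] at hy ⊢
      refine ⟨⟨by omega, hy.1.2⟩, hy.2.trans (card_le_card ?_)⟩
      intro P hP
      rw [mem_filter] at hP ⊢
      obtain ⟨hP1, u, hu, v, hv, hu1, hv1, h1, h2⟩ := hP
      refine ⟨hP1, good_of (by omega) ?_ ?_, ⟨u, hu, hu1, h1⟩, v, hv, hv1, h2⟩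
      · rw [h1]
        exact Pool.Agent.T2H22.AQ.pr_prime u
      · rw [h2]
        exact Pool.Agent.T2H22.AQ.pr_prime v
    · have h3 : 2 * ((max c 3 : ℕ) : ℝ) / ε ≤ X :=
        (Nat.le_ceil _).trans (by exact_mod_cast (le_max_right _ _).trans hX)
      rw [div_le_iff₀ hε] at h3
      linarith

end Pool.Agent.Results.MP_9227d9_nt.SelectedFirstZeros
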