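import Pool.Agent.Results.MP_70e905_nt.EveryWindowThird
import Pool.Agent.Results.MP_70e905_nt.ConsecutiveHalf
import Pool.Agent.T2H62.RecZ

/-!
# A third of all `m`: first zeros at consecutive primes with gap `2 m`, for many initial values

The recursion of the question from an arbitrary initial value `a 1 = A`. The first zero is at most `A + 1`, and it is
`A + 1` (no jumps) if and only if `A + 2` and `A + 2 m + 2` are primes. In every long window at least a third of all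
`m ≥ 1` are such that, for at least `x ^ (1 - η)` initial values `A ≤ x`, for every `η > 0` and arbitrarily large `x`,
the first zero is `n = A + 1` and `n + 1`, `n + 2 m + 1` are CONSECUTIVE primes; for one half of the multiples of every
sufficiently divisible number in place of a third of all `m`.

The theorems on gaps between consecutive primes are those of the starting files
(`MP_70e905_nt.EveryWindowThird`, `MP_70e905_nt.ConsecutiveHalf`).
-/

set_option autoImplicit false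

namespace Pool.Agent.Results.MP_9227d9_nt.ThirdOfGaps

open Filter

/-- the recursion of the question, without the initial value -/
def Recursion (m : ℕ) (a : ℕ → ℕ) : Prop :=
  ∀ n : ℕ, 2 ≤ n → (a n : ℤ) = |(a (n - 1) : ℤ) - (Nat.gcd (a (n - 1)) (n * (n + 2 * m)) : ℤ)|

/-- `n` is the first zero of `a` -/
def FirstZero (a : ℕ → ℕ) (n : ℕ) : Prop := 1 ≤ n ∧ a n = 0 ∧ ∀ k : ℕ, 1 ≤ k → k < n → a k ≠ 0

/-- the initial values `A` such that the first zero is `n = A + 1`, and `n + 1`, `n + 2 m + 1` are consecutive primes -/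
def Start (m : ℕ) : Set ℕ :=
  {A : ℕ | (A + 2).Prime ∧ (A + 2 * m + 2).Prime ∧ (∀ q : ℕ, A + 2 < q → q < A + 2 * m + 2 → ¬ q.Prime) ∧
    ∀ a : ℕ → ℕ, Recursion m a → a 1 = A → FirstZero a (A + 1)}

/-- for every `η > 0` and arbitrarily large `x` there are at least `x ^ (1 - η)` such initial values up to `x` -/
def Many (m : ℕ) : Prop :=
  ∀ η : ℝ, 0 < η → ∃ᶠ x : ℝ in atTop, x ^ (1 - η) ≤ ({A : ℕ | (A : ℝ) ≤ x ∧ A ∈ Start m}.ncard : ℝ)

theorem many_of {m : ℕ} (hm : 1 ≤ m) (q a : ℕ)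
    (h : ∀ η : ℝ, 0 < η → ∃ᶠ x : ℝ in atTop,
      x ^ (1 - η) ≤ ({n : ℕ | (Nat.nth Nat.Prime n : ℝ) ≤ x ∧ Nat.nth Nat.Prime n ≡ a [MOD q] ∧
        Nat.nth Nat.Prime (n + 1) = Nat.nth Nat.Prime n + 2 * m}.ncard : ℝ)) : Many m := by
  intro η hη
  refine (h η hη).mono fun x hx => hx.trans ?_
  rw [Nat.cast_le]
  have hinj : Set.InjOn (fun n : ℕ => Nat.nth Nat.Prime n - 2) {n : ℕ | (Nat.nth Nat.Prime n : ℝ) ≤ x ∧
      Nat.nth Nat.Prime n ≡ a [MOD q] ∧ Nat.nth Nat.Prime (n + 1) = Nat.nth Nat.Prime n + 2 * m} := by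
    intro n _ n' _ he
    have h1 := (Nat.prime_nth_prime n).two_le
    have h2 := (Nat.prime_nth_prime n').two_le
    simp only at he
    have h3 : Nat.nth Nat.Prime n = Nat.nth Nat.Prime n' := by omega
    exact Nat.nth_injective Nat.infinite_setOfPred_prime h3
  rw [← hinj.ncard_image]
  refine Set.ncard_le_ncard ?_ ((Set.finite_le_nat ⌊x⌋₊).subset fun A hA => Nat.le_floor hA.1)
  rintro A ⟨n, ⟨h1, -, h3⟩, rfl⟩
  have hp := Nat.prime_nth_prime n
  have hp' := Nat.prime_nth_prime (n + 1)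
  have h2 := hp.two_le
  obtain ⟨B, hB⟩ : ∃ B, B = Nat.nth Nat.Prime n - 2 := ⟨_, rfl⟩
  have e1 : Nat.nth Nat.Prime n = B + 2 := by omega
  have e2 : Nat.nth Nat.Prime (n + 1) = B + 2 * m + 2 := by omega
  simp only
  rw [← hB]
  rw [e1] at hp
  rw [e2] at hp'
  refine ⟨?_, hp, hp', fun q hq1 hq2 hq => ?_, fun a ha h1 => ?_⟩
  · rw [e1] at h1
    push_cast at h1
    linarith
  · have h4 := Nat.nth_count hq
    rw [← e1, ← h4, (Nat.nth_strictMono Nat.infinite_setOfPred_prime).lt_iff_lt] at hq1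
    rw [← e2, ← h4, (Nat.nth_strictMono Nat.infinite_setOfPred_prime).lt_iff_lt] at hq2
    omega
  · have h5 := Pool.Agent.T2H62.RZ.run_down hm ha h1 hp hp'
    refine ⟨by omega, ?_, fun k hk1 hk2 => ?_⟩
    · rw [h5 (B + 1) (by omega) (by omega)]
      omega
    · rw [h5 k hk1 (by omega)]
      omega

theorem result :
    -- the first zero is at most `A + 1`, with equality if and only if `A + 2` and `A + 2 m + 2` are primes
    (∀ m A : ℕ, 1 ≤ m → 2 * m + 2 ≤ A → ∀ a : ℕ → ℕ, Recursion m a → a 1 = A →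
      ∃ n : ℕ, FirstZero a n ∧ n ≤ A + 1 ∧ (n = A + 1 ↔ (A + 2).Prime ∧ (A + 2 * m + 2).Prime)) ∧
    -- a third of all `m` in every long window
    (∀ ε : ℝ, 0 < ε → ∃ L : ℕ, ∀ M : ℕ, L ≤ M → ∀ u : ℕ,
      (1 / 3 - ε) * (M : ℝ) ≤ ({m : ℕ | u < m ∧ m ≤ u + M ∧ Many m}.ncard : ℝ)) ∧
    -- one half of the multiples of every sufficiently divisible number
    (∀ ε : ℝ, 0 < ε → ∃ M₀ : ℕ, 0 < M₀ ∧ ∀ N : ℕ, 0 < N → M₀ ∣ N → ∃ L : ℕ, ∀ T : ℕ, L ≤ T → ∀ u : ℕ,
      (1 / 2 - ε) * (T : ℝ) ≤ ({k : ℕ | u < k ∧ k ≤ u + T ∧ Many (N * k)}.ncard : ℝ)) := by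
  refine ⟨fun m A hm hA a ha h1 => ?_, fun ε hε => ?_, fun ε hε => ?_⟩
  · obtain ⟨n, hn, hnA⟩ := Pool.Agent.T2H62.RZ.exists_zero ha
    rw [h1] at hnA
    refine ⟨n, hn, hnA, ?_⟩
    have h2 := Pool.Agent.T2H62.RZ.zero_iff hm ha h1 hA
    constructor
    · rintro rfl
      exact h2.1 hn
    · intro h3
      exact Pool.Agent.T2H62.RZ.zero_unique hn (h2.2 h3)
  · obtain ⟨L, hL⟩ := Pool.Agent.Results.MP_70e905_nt.EveryWindowThird.result 2 2 1 (by norm_num) (dvd_refl 2)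
      (dvd_refl 2) Nat.prime_two.squarefree (by norm_num) ε hε
    refine ⟨L, fun M hM u => (hL M hM u).trans ?_⟩
    rw [Nat.cast_le]
    refine Set.ncard_le_ncard ?_ ((Set.finite_Ioc u (u + M)).subset fun k hk => ⟨hk.1, hk.2.1⟩)
    rintro k ⟨h1, h2, h3⟩
    exact ⟨h1, h2, many_of (by omega) 2 1 h3⟩
  · obtain ⟨M₀, hM₀, H⟩ := Pool.Agent.Results.MP_70e905_nt.ConsecutiveHalf.result 1 0 (by norm_num) (by norm_num) ε hε
    refine ⟨M₀, hM₀, fun N hN hd => ?_⟩
    obtain ⟨L, hL⟩ := H (2 * N) (by omega) (hd.mul_left 2)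
    refine ⟨L, fun T hT u => (hL T hT u).trans ?_⟩
    rw [Nat.cast_le]
    refine Set.ncard_le_ncard ?_ ((Set.finite_Ioc u (u + T)).subset fun k hk => ⟨hk.1, hk.2.1⟩)
    rintro k ⟨h1, h2, h3⟩
    refine ⟨h1, h2, many_of (Nat.mul_pos hN (by omega)) 1 0 ?_⟩
    simp only [mul_assoc] at h3 ⊢
    exact h3

end Pool.Agent.Results.MP_9227d9_nt.ThirdOfGaps
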